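import Pool.Agent.H77.EA.Targets2

/-!
# Module CZ: invariant characters above a given character of a central subgroup
-/

open scoped Classical

namespace Pool.Agent.H39.EA

open AMc AMe Pool.Agent.H77.EA

theorem ncard_parts {α : Type} (A : ℕ → Set α) (n : ℕ) : ∀ S : Set α, S.Finite →
    (∀ a, a ∈ S ↔ ∃ i < n, a ∈ A i) →
    (∀ i < n, ∀ j < n, ∀ a, a ∈ A i → a ∈ A j → i = j) →
    S.ncard = ∑ i ∈ Finset.range n, (A i).ncard := by
  induction n with
  | zero =>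
    intro S _ h _
    have : S = ∅ := by
      ext a
      rw [h]
      simp
    rw [this]
    simp
  | succ n ih =>
    intro S hS h hd
    have h1 : S = {a | ∃ i < n, a ∈ A i} ∪ A n := by
      ext a
      rw [h]
      constructor
      · rintro ⟨i, hi, ha⟩
        rcases Nat.lt_succ_iff_lt_or_eq.1 hi with h2 | h2
        · exact Or.inl ⟨i, h2, ha⟩
        · exact Or.inr (h2 ▸ ha)
      · rintro (⟨i, hi, ha⟩ | ha)
        · exact ⟨i, by omega, ha⟩
        · exact ⟨n, by omega, ha⟩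
    have hf1 : {a | ∃ i < n, a ∈ A i}.Finite := hS.subset (by rw [h1]; exact Set.subset_union_left)
    have hf2 : (A n).Finite := hS.subset (by rw [h1]; exact Set.subset_union_right)
    have hdis : Disjoint {a | ∃ i < n, a ∈ A i} (A n) := by
      rw [Set.disjoint_left]
      rintro a ⟨i, hi, ha⟩ hn
      have := hd i (by omega) n (by omega) a ha hn
      omega
    rw [h1, Set.ncard_union_eq hdis hf1 hf2, Finset.sum_range_succ,
      ih _ hf1 (fun a => Iff.rfl) (fun i hi j hj => hd i (by omega) j (by omega))]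

section

variable {N : Type} [Group N] [Fintype N]

/-- irreducible characters of a finite group: finitely many, of nonzero degree -/
theorem irr_fin (hK1 : T_K1) (hS9 : T_S9) : (Irr N).Finite := by
  obtain ⟨fs, hfs, -⟩ := hS9 N (MonoidHom.id N).range
  have h1 : Function.Injective (MonoidHom.id N) := Function.injective_id
  obtain ⟨k1, k2, -, -⟩ := hK1 N N _ h1
  have hinj : Function.Injective (extj (MonoidHom.id N)) := by
    intro a b hab
    funext x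
    rw [← k1 a x, ← k1 b x, hab]
  have h2 : extj (MonoidHom.id N) '' (Irr N) ⊆ (fs : Set (N → ℂ)) := by
    rintro _ ⟨χ, hχ, rfl⟩
    exact Finset.mem_coe.2 ((hfs _).2 ((k2 χ).1 hχ))
  exact ((Finset.finite_toSet fs).subset h2).of_finite_image hinj.injOn

theorem irr_one_ne (hK1 : T_K1) (hS1 : T_S1) {a : N → ℂ} (ha : a ∈ Irr N) : a 1 ≠ 0 := by
  have h1 : Function.Injective (MonoidHom.id N) := Function.injective_id
  obtain ⟨k1, k2, -, -⟩ := hK1 N N _ h1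
  obtain ⟨-, -, ⟨d, hd, hd1⟩, -⟩ := hS1 N _ _ ((k2 a).1 ha)
  have h2 := k1 a 1
  rw [map_one] at h2
  rw [← h2, hd1]
  exact Nat.cast_ne_zero.2 hd.ne'

theorem mul_pow_on {Z : Subgroup N} {ν : N → ℂ} (h1 : ν 1 = 1)
    (hm : ∀ z ∈ Z, ∀ w ∈ Z, ν (z * w) = ν z * ν w) {z : N} (hz : z ∈ Z) (k : ℕ) :
    ν (z ^ k) = ν z ^ k := by
  induction k with
  | zero => rw [pow_zero, pow_zero, h1]
  | succ k ih => rw [pow_succ, pow_succ, hm _ (Z.pow_mem hz k) _ hz, ih]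

/-- a generator of the image -/
theorem exists_gen {Z : Subgroup N} {ν : N → ℂ} (h1 : ν 1 = 1)
    (hm : ∀ z ∈ Z, ∀ w ∈ Z, ν (z * w) = ν z * ν w) :
    ∃ z₀ ∈ Z, ∀ z ∈ Z, ∃ t : ℕ, ν z = ν z₀ ^ t := by
  have hne : ∀ z : Z, ν z ≠ 0 := by
    intro z h0
    have := hm z z.2 (z : N)⁻¹ (Z.inv_mem z.2)
    rw [mul_inv_cancel, h1, h0, zero_mul] at this
    exact one_ne_zero this
  let f : Z →* ℂˣ :=
    { toFun := fun z => Units.mk0 (ν z) (hne z)
      map_one' := by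
        apply Units.ext
        exact h1
      map_mul' := by
        intro z w
        apply Units.ext
        exact hm z z.2 w w.2 }
  have : Finite f.range := Set.finite_range f
  have : IsCyclic f.range := inferInstance
  obtain ⟨⟨_, ⟨z₀, rfl⟩⟩, hg⟩ := IsCyclic.exists_monoid_generator (α := f.range)
  refine ⟨z₀, z₀.2, fun z hz => ?_⟩
  obtain ⟨t, ht⟩ := hg ⟨f ⟨z, hz⟩, ⟨⟨z, hz⟩, rfl⟩⟩
  refine ⟨t, ?_⟩
  have h2 := congrArg (fun x : f.range => ((x : ℂˣ) : ℂ)) ht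
  exact h2.symm

theorem fix_congr {ℓ : ℕ} {𝔪 : Ideal (integralClosure ℤ ℂ)} {χ : N → ℂ} {D : Subgroup N}
    {τ : MulAut N} {Z : Subgroup N} {ν ν' : N → ℂ} (h : ∀ z ∈ Z, ν z = ν' z) :
    FixC ℓ 𝔪 χ D τ Z ν = FixC ℓ 𝔪 χ D τ Z ν' := by
  ext a
  constructor
  · rintro ⟨h1, h2, h3⟩
    exact ⟨h1, h2, fun z hz => by rw [h3 z hz, h z hz]⟩
  · rintro ⟨h1, h2, h3⟩
    exact ⟨h1, h2, fun z hz => by rw [h3 z hz, h z hz]⟩

theorem fix_finite (hK1 : T_K1) (hS9 : T_S9) {ℓ : ℕ} {𝔪 : Ideal (integralClosure ℤ ℂ)}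
    {χ : N → ℂ} {D : Subgroup N} {τ : MulAut N} {Z : Subgroup N} {ν : N → ℂ} :
    (FixC ℓ 𝔪 χ D τ Z ν).Finite :=
  (irr_fin hK1 hS9).subset fun _ h => h.1.1

/-- splitting according to the character of `Z` -/
theorem fix_split (hK1 : T_K1) (hS1 : T_S1) (hS9 : T_S9) (hZH : T_ZH) {ℓ : ℕ}
    {𝔪 : Ideal (integralClosure ℤ ℂ)} {χ : N → ℂ} {D : Subgroup N} {τ : MulAut N}
    {Z K : Subgroup N} {ν : N → ℂ} (hZ : Z ≤ Subgroup.center N) (h1 : ν 1 = 1)
    (hm : ∀ z ∈ Z, ∀ w ∈ Z, ν (z * w) = ν z * ν w) {z₀ : N} (hz₀ : z₀ ∈ Z)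
    (hgen : ∀ z ∈ Z, ∃ t : ℕ, ν z = ν z₀ ^ t) (hpos : 0 < orderOf (ν z₀))
    (hK : ∀ z, z ∈ K ↔ z ∈ Z ∧ ν z = 1) :
    (FixC ℓ 𝔪 χ D τ K 1).ncard =
      ∑ i ∈ Finset.range (orderOf (ν z₀)), (FixC ℓ 𝔪 χ D τ Z (fun z => ν z ^ i)).ncard := by
  have hprim : IsPrimitiveRoot (ν z₀) (orderOf (ν z₀)) := IsPrimitiveRoot.orderOf _
  have : NeZero (orderOf (ν z₀)) := ⟨hpos.ne'⟩
  refine ncard_parts (fun i => FixC ℓ 𝔪 χ D τ Z (fun z => ν z ^ i)) _ _
    (fix_finite hK1 hS9) (fun a => ?_) ?_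
  · constructor
    · rintro ⟨h2, h3, h4⟩
      have ha1 : a 1 ≠ 0 := irr_one_ne hK1 hS1 h2.1
      set μ : N → ℂ := fun z => a z / a 1 with hμ
      have hμm : ∀ z ∈ Z, ∀ w, μ (z * w) = μ z * μ w := by
        intro z hz w
        have := (hZH N a h2.1 z (hZ hz)).1 w
        rw [hμ]
        simp only
        field_simp
        exact this
      have hμ1 : μ 1 = 1 := by
        rw [hμ]
        exact div_self ha1
      have hμp : ∀ z ∈ Z, ∀ k : ℕ, μ (z ^ k) = μ z ^ k := by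
        intro z hz k
        exact mul_pow_on (Z := Z) hμ1 (fun z hz w _ => hμm z hz w) hz k
      have hμK : ∀ z ∈ K, μ z = 1 := by
        intro z hz
        have := h4 z hz
        rw [Pi.one_apply, one_mul] at this
        rw [hμ]
        simp only
        rw [this]
        exact div_self ha1
      have h5 : μ z₀ ^ orderOf (ν z₀) = 1 := by
        rw [← hμp z₀ hz₀]
        apply hμK
        rw [hK]
        refine ⟨Z.pow_mem hz₀ _, ?_⟩
        rw [mul_pow_on h1 hm hz₀, pow_orderOf_eq_one]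
      obtain ⟨i, hi, hi2⟩ := hprim.eq_pow_of_pow_eq_one h5
      refine ⟨i, hi, h2, h3, fun z hz => ?_⟩
      obtain ⟨t, ht⟩ := hgen z hz
      have hzt : z * (z₀ ^ t)⁻¹ ∈ K := by
        rw [hK]
        have hzz : z * (z₀ ^ t)⁻¹ ∈ Z := Z.mul_mem hz (Z.inv_mem (Z.pow_mem hz₀ t))
        refine ⟨hzz, ?_⟩
        have h6 : ν z = ν (z * (z₀ ^ t)⁻¹) * ν (z₀ ^ t) := by
          rw [← hm _ hzz _ (Z.pow_mem hz₀ t), inv_mul_cancel_right]
        rw [mul_pow_on h1 hm hz₀, ht] at h6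
        have h7 : ν z₀ ^ t ≠ 0 := by
          apply pow_ne_zero
          intro h0
          rw [h0, orderOf_zero] at hpos
          exact lt_irrefl 0 hpos
        exact (mul_eq_right₀ h7).1 h6.symm
      have h8 : μ z = μ z₀ ^ t := by
        have h9 := hμm _ ((hK _).1 hzt).1 (z₀ ^ t)
        rw [inv_mul_cancel_right, hμK _ hzt, one_mul, hμp z₀ hz₀] at h9
        exact h9
      have h10 : a z = μ z * a 1 := by
        rw [hμ]
        simp only
        rw [div_mul_cancel₀ _ ha1]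
      show a z = ν z ^ i * a 1
      rw [h10, h8, ht, ← hi2, ← pow_mul, ← pow_mul, mul_comm i t]
    · rintro ⟨i, -, h2, h3, h4⟩
      refine ⟨h2, h3, fun z hz => ?_⟩
      have h5 := (hK z).1 hz
      have h6 : a z = ν z ^ i * a 1 := h4 z h5.1
      rw [h6, h5.2, one_pow, Pi.one_apply]
  · rintro i hi j hj a ⟨h2, -, h4⟩ ⟨-, -, h5⟩
    have ha1 : a 1 ≠ 0 := irr_one_ne hK1 hS1 h2.1
    have h6 : a z₀ = ν z₀ ^ i * a 1 := h4 z₀ hz₀
    have h7 : a z₀ = ν z₀ ^ j * a 1 := h5 z₀ hz₀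
    rw [h7] at h6
    exact (hprim.pow_inj hj hi (mul_right_cancel₀ ha1 h6)).symm

end

/-- the exponent for the Galois conjugation -/
theorem exists_m {ℓ c n i : ℕ} (hℓ : ℓ.Prime) (hc : c ≠ 0) (hn : n ∣ c) {k : ℕ}
    (hnk : n ∣ ℓ ^ k) (hi : ¬ ℓ ∣ i) :
    ∃ m : ℕ, c.Coprime m ∧ m ≡ i [MOD n] ∧ ∀ r : ℕ, r ∣ c → ¬ ℓ ∣ r → m ≡ 1 [MOD r] := by
  obtain ⟨A, c', hc', hcc⟩ := Nat.exists_eq_pow_mul_and_not_dvd hc ℓ hℓ.ne_one
  have hco : Nat.Coprime (ℓ ^ A) c' := Nat.Coprime.pow_left A ((hℓ.coprime_iff_not_dvd).2 hc')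
  obtain ⟨m, hm1, hm2⟩ := Nat.chineseRemainder hco i 1
  refine ⟨m, ?_, ?_, ?_⟩
  · rw [hcc, Nat.coprime_comm]
    refine Nat.Coprime.mul_right ?_ ?_
    · rw [Nat.Coprime, hm1.gcd_eq]
      exact (Nat.Coprime.pow_left A ((hℓ.coprime_iff_not_dvd).2 hi)).symm
    · rw [Nat.Coprime, hm2.gcd_eq, Nat.gcd_one_left]
  · refine hm1.of_dvd ?_
    have h1 : Nat.Coprime n c' :=
      Nat.Coprime.coprime_dvd_left hnk (Nat.Coprime.pow_left k ((hℓ.coprime_iff_not_dvd).2 hc'))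
    rw [hcc] at hn
    exact h1.dvd_of_dvd_mul_right hn
  · intro r hr hlr
    refine hm2.of_dvd ?_
    have h1 : Nat.Coprime r (ℓ ^ A) :=
      Nat.Coprime.pow_right A ((hℓ.coprime_iff_not_dvd).2 hlr).symm
    rw [hcc] at hr
    exact h1.dvd_of_dvd_mul_left hr

theorem cz (hK1 : T_K1) (hS1 : T_S1) (hS9 : T_S9) (hQC : T_QC) (hGC : AMe.T_GC) (hZH : T_ZH) :
    T_CZ := by
  intro ℓ hℓ 𝔪 hmax hℓ𝔪 hCA G _ _ D χ ψ hB σ hσ Z hZ hZp hZσ ν hν1 hνm hνσ
  have hp : ℓ.Prime := hℓ.out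
  obtain ⟨z₀, hz₀, hgen⟩ := exists_gen hν1 hνm
  -- membership in the normaliser
  have hZM : ∀ z ∈ Z, z ∈ (Subgroup.normalizer (D : Set G)) := by
    intro z hz
    rw [Subgroup.mem_normalizer_iff]
    intro g
    have := Subgroup.mem_center_iff.1 (hZ hz) g
    rw [← this, mul_inv_cancel_right]
  have hZ'c : Z.subgroupOf (Subgroup.normalizer (D : Set G)) ≤ Subgroup.center (Subgroup.normalizer (D : Set G)) := by
    intro x hx
    rw [Subgroup.mem_center_iff]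
    intro g
    apply Subtype.ext
    exact Subgroup.mem_center_iff.1 (hZ (Subgroup.mem_subgroupOf.1 hx)) g
  -- the induction
  have main : ∀ n : ℕ, ∀ ν : G → ℂ, ν 1 = 1 → (∀ z ∈ Z, ∀ w ∈ Z, ν (z * w) = ν z * ν w) →
      (∀ z ∈ Z, ν (σ z) = ν z) → (∀ z ∈ Z, ∃ t : ℕ, ν z = ν z₀ ^ t) → orderOf (ν z₀) = n →
      (FixC ℓ 𝔪 χ D σ Z ν).ncard =
        (FixC ℓ 𝔪 ψ (D.subgroupOf (Subgroup.normalizer (D : Set G))) (rs D σ hσ.1) (Z.subgroupOf (Subgroup.normalizer (D : Set G))) (fun x => ν x)).ncard := by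
    intro n
    induction n using Nat.strong_induction_on with
    | _ n ih =>
    intro ν hν1 hνm hνσ hgen hn
    -- the order
    have hzc : z₀ ^ (Nat.card G) = 1 := pow_card_eq_one'
    have hnc : orderOf (ν z₀) ∣ Nat.card G := by
      apply orderOf_dvd_of_pow_eq_one
      rw [← mul_pow_on hν1 hνm hz₀, hzc, hν1]
    have hc0 : Nat.card G ≠ 0 := Nat.card_pos.ne'
    have hpos : 0 < orderOf (ν z₀) := Nat.pos_of_dvd_of_pos hnc Nat.card_pos
    obtain ⟨k, hk⟩ := hZp ⟨z₀, hz₀⟩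
    have hk' : z₀ ^ (ℓ ^ k) = 1 := congrArg Subtype.val hk
    have hnk : orderOf (ν z₀) ∣ ℓ ^ k := by
      apply orderOf_dvd_of_pow_eq_one
      rw [← mul_pow_on hν1 hνm hz₀, hk', hν1]
    by_cases hn1 : orderOf (ν z₀) = 1
    · -- `ν = 1` on `Z`
      have hone : ∀ z ∈ Z, ν z = (1 : G → ℂ) z := by
        intro z hz
        obtain ⟨t, ht⟩ := hgen z hz
        rw [ht, orderOf_eq_one_iff.1 hn1, one_pow, Pi.one_apply]
      rw [fix_congr hone, fix_congr (ν' := (1 : (Subgroup.normalizer (D : Set G)) → ℂ)) (fun z hz => hone z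
        (Subgroup.mem_subgroupOf.1 hz))]
      exact hQC ℓ 𝔪 hmax hℓ𝔪 hCA G D χ ψ hB σ hσ Z hZ hZp hZσ
    -- the kernel
    let K : Subgroup G :=
      { carrier := {z | z ∈ Z ∧ ν z = 1}
        mul_mem' := by
          rintro a b ⟨ha, ha'⟩ ⟨hb, hb'⟩
          exact ⟨Z.mul_mem ha hb, by rw [hνm a ha b hb, ha', hb', mul_one]⟩
        one_mem' := ⟨Z.one_mem, hν1⟩
        inv_mem' := by
          rintro a ⟨ha, ha'⟩
          refine ⟨Z.inv_mem ha, ?_⟩
          have := hνm a ha a⁻¹ (Z.inv_mem ha)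
          rw [mul_inv_cancel, hν1, ha', one_mul] at this
          exact this.symm }
    have hKmem : ∀ z, z ∈ K ↔ z ∈ Z ∧ ν z = 1 := fun z => Iff.rfl
    have hKZ : K ≤ Z := fun z hz => hz.1
    have hKσ : ∀ g, σ g ∈ K ↔ g ∈ K := by
      intro g
      rw [hKmem, hKmem, hZσ]
      constructor
      · rintro ⟨h1, h2⟩
        exact ⟨h1, by rw [← hνσ g h1]; exact h2⟩
      · rintro ⟨h1, h2⟩
        exact ⟨h1, by rw [hνσ g h1]; exact h2⟩
    have hq := hQC ℓ 𝔪 hmax hℓ𝔪 hCA G D χ ψ hB σ hσ K (hKZ.trans hZ) (hZp.to_le hKZ) hKσ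
    -- both splittings
    have hs1 := fix_split hK1 hS1 hS9 hZH (ℓ := ℓ) (𝔪 := 𝔪) (χ := χ) (D := D) (τ := σ) hZ hν1
      hνm hz₀ hgen hpos hKmem
    have hs2 := fix_split hK1 hS1 hS9 hZH (ℓ := ℓ) (𝔪 := 𝔪) (χ := ψ) (D := D.subgroupOf (Subgroup.normalizer (D : Set G)))
      (τ := rs D σ hσ.1) (Z := Z.subgroupOf (Subgroup.normalizer (D : Set G))) (K := K.subgroupOf (Subgroup.normalizer (D : Set G)))
      (ν := fun x : (Subgroup.normalizer (D : Set G)) => ν x) (z₀ := ⟨z₀, hZM z₀ hz₀⟩) hZ'c hν1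
      (fun z hz w hw => hνm z (Subgroup.mem_subgroupOf.1 hz) w (Subgroup.mem_subgroupOf.1 hw))
      (Subgroup.mem_subgroupOf.2 hz₀) (fun z hz => hgen z (Subgroup.mem_subgroupOf.1 hz)) hpos
      (fun z => by rw [Subgroup.mem_subgroupOf, Subgroup.mem_subgroupOf]; exact Iff.rfl)
    rw [hs1, hs2] at hq
    -- the parts with `i` not divisible by `ℓ`
    have hG : ∀ i, ¬ ℓ ∣ i → (FixC ℓ 𝔪 χ D σ Z (fun z => ν z ^ i)).ncard =
          (FixC ℓ 𝔪 χ D σ Z ν).ncard ∧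
        (FixC ℓ 𝔪 ψ (D.subgroupOf (Subgroup.normalizer (D : Set G))) (rs D σ hσ.1) (Z.subgroupOf (Subgroup.normalizer (D : Set G)))
          (fun x : (Subgroup.normalizer (D : Set G)) => ν x ^ i)).ncard =
          (FixC ℓ 𝔪 ψ (D.subgroupOf (Subgroup.normalizer (D : Set G))) (rs D σ hσ.1) (Z.subgroupOf (Subgroup.normalizer (D : Set G)))
          (fun x : (Subgroup.normalizer (D : Set G)) => ν x)).ncard := by
      intro i hi
      obtain ⟨m, hm1, hm2, hm3⟩ := exists_m hp hc0 hnc hnk hi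
      have hmi : ∀ z ∈ Z, ν z ^ i = ν z ^ m := by
        intro z hz
        obtain ⟨t, ht⟩ := hgen z hz
        have h1 : ν z₀ ^ i = ν z₀ ^ m := by
          rw [← pow_mod_orderOf (ν z₀) i, ← pow_mod_orderOf (ν z₀) m, hm2]
        rw [ht, ← pow_mul, ← pow_mul, mul_comm t i, mul_comm t m, pow_mul, pow_mul, h1]
      constructor
      · rw [fix_congr hmi]
        refine hGC ℓ 𝔪 hmax hℓ𝔪 G D χ hB.1 σ Z ν hν1 hνm m hm1 ?_
        intro g hg
        have h1 := hm3 (orderOf g) (orderOf_dvd_natCard g) hg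
        rw [← pow_eq_pow_iff_modEq, pow_one] at h1
        exact h1
      · rw [fix_congr (N := (Subgroup.normalizer (D : Set G))) (ν := fun x : (Subgroup.normalizer (D : Set G)) => ν x ^ i) (ν' := fun x : (Subgroup.normalizer (D : Set G)) => ν x ^ m)
          (fun z hz => hmi z (Subgroup.mem_subgroupOf.1 hz))]
        refine hGC ℓ 𝔪 hmax hℓ𝔪 (Subgroup.normalizer (D : Set G)) (D.subgroupOf (Subgroup.normalizer (D : Set G))) ψ hB.2.1 (rs D σ hσ.1) (Z.subgroupOf (Subgroup.normalizer (D : Set G)))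
          (fun x : (Subgroup.normalizer (D : Set G)) => ν x) hν1 (fun z hz w hw => hνm z (Subgroup.mem_subgroupOf.1 hz) w
            (Subgroup.mem_subgroupOf.1 hw)) m
          (Nat.Coprime.coprime_dvd_left (Subgroup.card_subgroup_dvd_card (Subgroup.normalizer (D : Set G))) hm1) ?_
        intro g hg
        rw [← Subgroup.orderOf_coe] at hg
        have h1 := hm3 (orderOf (g : G)) (orderOf_dvd_natCard _) hg
        rw [← pow_eq_pow_iff_modEq, pow_one] at h1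
        apply Subtype.ext
        exact h1
    -- the parts with `i` divisible by `ℓ`
    have hL : ∀ i, ℓ ∣ i → (FixC ℓ 𝔪 χ D σ Z (fun z => ν z ^ i)).ncard =
        (FixC ℓ 𝔪 ψ (D.subgroupOf (Subgroup.normalizer (D : Set G))) (rs D σ hσ.1) (Z.subgroupOf (Subgroup.normalizer (D : Set G)))
          (fun x : (Subgroup.normalizer (D : Set G)) => ν x ^ i)).ncard := by
      intro i hi
      have hlt : orderOf (ν z₀ ^ i) < n := by
        have h1 : orderOf (ν z₀ ^ i) ∣ orderOf (ν z₀) := orderOf_pow_dvd i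
        refine lt_of_le_of_ne (by rw [← hn]; exact Nat.le_of_dvd hpos h1) ?_
        intro h2
        obtain ⟨b, hb, hb2⟩ := (Nat.dvd_prime_pow hp).1 hnk
        have hb0 : b ≠ 0 := by
          rintro rfl
          exact hn1 hb2
        obtain ⟨i', rfl⟩ := hi
        obtain ⟨b', rfl⟩ := Nat.exists_eq_succ_of_ne_zero hb0
        have h3 : orderOf (ν z₀ ^ (ℓ * i')) ∣ ℓ ^ b' := by
          apply orderOf_dvd_of_pow_eq_one
          rw [← pow_mul]
          have : ℓ * i' * ℓ ^ b' = orderOf (ν z₀) * i' := by rw [hb2, pow_succ]; ring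
          rw [this, pow_mul, pow_orderOf_eq_one, one_pow]
        have h4 := Nat.le_of_dvd (pow_pos hp.pos _) h3
        rw [h2, ← hn, hb2] at h4
        exact absurd h4 (not_le.2 (Nat.pow_lt_pow_right hp.one_lt (Nat.lt_succ_self b')))
      refine ih _ hlt (fun z => ν z ^ i) ?_ ?_ ?_ ?_ rfl
      · show ν 1 ^ i = 1
        rw [hν1, one_pow]
      · intro z hz w hw
        show ν (z * w) ^ i = ν z ^ i * ν w ^ i
        rw [hνm z hz w hw, mul_pow]
      · intro z hz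
        show ν (σ z) ^ i = ν z ^ i
        rw [hνσ z hz]
      · intro z hz
        obtain ⟨t, ht⟩ := hgen z hz
        refine ⟨t, ?_⟩
        show ν z ^ i = (ν z₀ ^ i) ^ t
        rw [ht, ← pow_mul, ← pow_mul, mul_comm]
    -- comparison of the sums
    set x := (FixC ℓ 𝔪 χ D σ Z ν).ncard
    set y := (FixC ℓ 𝔪 ψ (D.subgroupOf (Subgroup.normalizer (D : Set G))) (rs D σ hσ.1) (Z.subgroupOf (Subgroup.normalizer (D : Set G)))
          (fun x : (Subgroup.normalizer (D : Set G)) => ν x)).ncard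
    by_contra hxy
    have hlt : (1 : ℕ) < orderOf (ν z₀) := by omega
    have h1mem : 1 ∈ Finset.range (orderOf (ν z₀)) := Finset.mem_range.2 hlt
    have h1l : ¬ ℓ ∣ 1 := hp.one_lt.ne' ∘ Nat.dvd_one.1
    rcases lt_or_gt_of_ne hxy with hlt2 | hlt2
    · refine absurd hq (ne_of_lt (Finset.sum_lt_sum (fun i _ => ?_) ⟨1, h1mem, ?_⟩))
      · by_cases hi : ℓ ∣ i
        · exact (hL i hi).le
        · rw [(hG i hi).1, (hG i hi).2]; exact hlt2.le
      · rw [(hG 1 h1l).1, (hG 1 h1l).2]; exact hlt2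
    · refine absurd hq.symm (ne_of_lt (Finset.sum_lt_sum (fun i _ => ?_) ⟨1, h1mem, ?_⟩))
      · by_cases hi : ℓ ∣ i
        · exact (hL i hi).ge
        · rw [(hG i hi).1, (hG i hi).2]; exact hlt2.le
      · rw [(hG 1 h1l).1, (hG 1 h1l).2]; exact hlt2
  exact main _ ν hν1 hνm hνσ hgen rfl

end Pool.Agent.H39.EA
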