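import Pool.Agent.H77.EA.Final
import Pool.Agent.H77.EA.Targets3

/-!
# Equivariant Alperin–McKay (MP_657073_al): module XM, the numbers of invariant characters
which extend (type level)
-/

open scoped Classical

set_option linter.unusedSectionVars false

namespace Pool.Agent.H39.EA

open AMc AMe Pool.Agent.H77.EA

section

variable {F : Type} [Field F] {π : integralClosure ℤ ℂ →+* F} (hπ : Function.Surjective π)
  {ℓ : ℕ} [Fact ℓ.Prime] [CharP F ℓ] (H : HypF)
include hπ H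

/-- irreducible characters are class functions -/
theorem irr_class {N Γ : Type} [Group N] [Fintype N] [Group Γ] [Fintype Γ] {i : N →* Γ}
    (hi : Function.Injective i) {a : N → ℂ} (ha : a ∈ Irr N) (k g : N) :
    a (k * g * k⁻¹) = a g := by
  have h1 := (H.S1 Γ i.range _ (((H.K1 N Γ i hi).2.1 a).1 ha)).2.1 (i k) ⟨k, rfl⟩ (i g)
  rw [← map_inv, ← map_mul, ← map_mul, (H.K1 N Γ i hi).1, (H.K1 N Γ i hi).1] at h1
  exact h1

/-- the type level set of invariant characters which extend and the ambient one -/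
theorem card_fixE {N T Γ : Type} [Group N] [Fintype N] [Group T] [Group Γ] [Fintype Γ]
    {i : N →* Γ} (hi : Function.Injective i) (ρ : T →* MulAut N) (P : Subgroup T) {h₀ : T}
    {n : ℕ} (hHE : HE ℓ P h₀ n) (X : Subgroup Γ) (γ : Γ)
    (a : (N ⋊[ρ.comp P.subtype] P) →* Γ) (ha : Function.Injective a) (haX : a.range = X)
    (hal : ∀ g, a (SemidirectProduct.inl g) = i g)
    (hγ : ∀ g, γ * i g * γ⁻¹ = i (ρ h₀ g))
    (hX : ∀ x ∈ X, ∃ p ∈ P, ∃ k : N, ∀ g, x * i g * x⁻¹ = i (k * ρ p g * k⁻¹))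
    (hX' : ∀ p ∈ P, ∃ x ∈ X, ∀ g, x * i g * x⁻¹ = i (ρ p g))
    {χ : N → ℂ} (hχ : χ ∈ Irr N) (D : Subgroup N) :
    (FixE ℓ (RingHom.ker π) χ D ρ P).ncard =
      (K0X π ℓ X i.range (extj i χ) (D.map i) γ).ncard := by
  obtain ⟨h1, h2, -⟩ := H.KX F π hπ ℓ N Γ i hi χ hχ D
  have hK := (H.K1 N Γ i hi).1
  have _ : Fintype (N ⋊[ρ.comp P.subtype] P) := Fintype.ofInjective a ha
  have hKa := H.K1 (N ⋊[ρ.comp P.subtype] P) Γ a ha
  rw [← Set.ncard_image_of_injective _ (extj_inj hπ H hi)]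
  congr 1
  -- conjugation of functions on `i.range`
  have hcj : ∀ (x : Γ) (τ : N → N), (∀ g, x * i g * x⁻¹ = i (τ g)) → Function.Surjective τ →
      ∀ b : N → ℂ, cj x (extj i b) = extj i b ↔ ∀ g, b (τ g) = b g := by
    intro x τ hτ hs b
    constructor
    · intro h g
      have h3 := congrFun h (i g)
      unfold cj at h3
      rw [hτ, hK, hK] at h3
      exact h3
    · intro h
      funext g
      show extj i b (x * g * x⁻¹) = extj i b g
      by_cases hg : g ∈ i.range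
      · obtain ⟨y, rfl⟩ := hg
        rw [hτ, hK, hK, h]
      · have h3 : ¬ x * g * x⁻¹ ∈ i.range := by
          rintro ⟨y, hy⟩
          obtain ⟨z, rfl⟩ := hs y
          rw [← hτ] at hy
          have h4 : i z = g := by
            have := congrArg (fun w => x⁻¹ * w * x) hy
            simpa [mul_assoc] using this
          exact hg ⟨z, h4⟩
        unfold extj
        rw [dif_neg (fun h => h3 (MonoidHom.mem_range.2 h)),
          dif_neg (fun h => hg (MonoidHom.mem_range.2 h))]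
  have hcγ := hcj γ (ρ h₀) hγ (ρ h₀).surjective
  have key : ∀ b : N → ℂ, b ∈ FixE ℓ (RingHom.ker π) χ D ρ P ↔
      extj i b ∈ K0X π ℓ X i.range (extj i χ) (D.map i) γ := by
    intro b
    constructor
    · rintro ⟨⟨hb, hb'⟩, χ', hχ', hb''⟩
      refine ⟨(h1 b).1 hb, fun x hx => ?_, (hcγ b).2 (hb' h₀), extj a χ', ?_, ?_⟩
      · obtain ⟨p, hp, k, hk⟩ := hX x hx
        refine (hcj x (fun g => k * ρ p g * k⁻¹) hk ?_ b).2 fun g => ?_
        · intro y
          refine ⟨(ρ p)⁻¹ (k⁻¹ * y * k), ?_⟩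
          show k * ρ p ((ρ p)⁻¹ (k⁻¹ * y * k)) * k⁻¹ = y
          rw [MulAut.apply_inv_self]
          group
        · rw [irr_class hπ H hi hb.1, hb']
      · rw [← haX]
        exact (hKa.2.1 χ').1 hχ'
      · rintro _ ⟨g, rfl⟩
        rw [hK, ← hal, hKa.1]
        exact hb'' g
    · rintro ⟨hb, hbX, hbγ, χ', hχ', hb''⟩
      have hb0 := (h1 b).2 hb
      have e1 := (hcγ b).1 hbγ
      have e2 : ∀ p ∈ P, ∀ g, b (ρ p g) = b g := by
        intro p hp
        obtain ⟨x, hx, hx'⟩ := hX' p hp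
        exact (hcj x (ρ p) hx' (ρ p).surjective b).1 (hbX x hx)
      have e3 : ∀ (c : ℕ) (g : N), b (ρ (h₀ ^ c) g) = b g := by
        intro c
        induction c with
        | zero => intro g; rw [pow_zero, map_one]; rfl
        | succ c ih =>
          intro g
          rw [pow_succ, map_mul, MulAut.mul_apply, ih, e1]
      refine ⟨⟨hb0, fun h g => ?_⟩, ?_⟩
      · obtain ⟨c, p, hp, rfl⟩ := hHE.gen h
        rw [map_mul, MulAut.mul_apply, e2 p hp, e3]
      · rw [← haX] at hχ'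
        obtain ⟨χ'', hχ'', rfl⟩ := hKa.2.2.1 χ' hχ'
        refine ⟨χ'', hχ'', fun g => ?_⟩
        rw [← hKa.1 χ'' (SemidirectProduct.inl g), hal, hb'' _ ⟨g, rfl⟩, hK]
  ext θ
  constructor
  · rintro ⟨b, hb, rfl⟩
    exact (key b).1 hb
  · intro hθ
    obtain ⟨b, rfl⟩ := h2 θ hθ.1
    exact ⟨b, (key b).2 hθ, rfl⟩

end

/-- XM: the numbers of invariant characters which extend (type level) -/
theorem xm (hXK : T_XK) (hXL : T_XL) (H : HypF) : T_XM := by
  intro ℓ _ 𝔪 hm hl hAM G N T _ _ _ _ _ _ j D E χ ψ hBP ρ ρ' hρ hfix P h₀ n hHE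
  obtain ⟨F, _, π, hπ, rfl, _⟩ := exists_field ℓ 𝔪 hm hl
  have hj := hBP.inj
  obtain ⟨Γ, _, _, Q, _, _, i, s, X, γ, a, b, hi, hdat, hγ, hX, hX', hXN, ha, haX, hal, hb, hbX,
    hbl⟩ := hXL ℓ G N T ρ j ρ' hj hρ D hBP.rng (fun h => (hfix h).1) P h₀ n hHE
  have hij : Function.Injective (i.comp j) := hi.comp hj
  have hr : (i.comp j).range =
      i.range ⊓ Subgroup.normalizer ((D.map i : Subgroup Γ) : Set Γ) := by
    rw [MonoidHom.range_comp, hBP.rng]
    exact (H.K2 G Γ i hi (RingHom.ker π) ℓ χ D).2.2.2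
  have hE : E.map (i.comp j) = D.map i := by
    rw [← Subgroup.map_map, hBP.map]
  have h1 : extj i χ ∈ IrrS i.range := ((H.K1 G Γ i hi).2.1 χ).1 hBP.irr
  have h2 : extj (i.comp j) ψ ∈
      IrrS (i.range ⊓ Subgroup.normalizer ((D.map i : Subgroup Γ) : Set Γ)) := by
    rw [← hr]; exact ((H.K1 _ Γ _ hij).2.1 ψ).1 hBP.irr'
  have hdef : DefH ℓ i.range (lam π (extj i χ)) (D.map i) :=
    ((H.B9 F π hπ ℓ Γ i.range _ h1).2.1 (D.map i)).1
      ((H.K2 G Γ i hi (RingHom.ker π) ℓ χ D).1.1 hBP.dfc)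
  have hDp : IsPGroup ℓ D := hBP.dfc.1
  have hcor : Cor π i.range (D.map i) (extj i χ) (extj (i.comp j) ψ) :=
    (H.B8 F π hπ ℓ Γ i.range (D.map i) (hDp.map i) (Subgroup.map_le_range i D) _ h1 _ h2).1
      (((H.K2 G Γ i hi (RingHom.ker π) ℓ χ D).2.2.1 N j hj ψ).1 hBP.cor)
  have hKX := (H.KX F π hπ ℓ G Γ i hi χ hBP.irr D).2.2.1
  have hbl' : Blk π i.range (extj i χ) (cj γ (extj i χ)) := by
    rw [cj_extj hπ H hi hdat.nmK hγ]
    exact (hKX _ (irr_cmp _ hBP.irr)).1 (hfix h₀).2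
  have hnmX : ∀ x ∈ X, Nm x i.range := by
    intro x hx g
    constructor
    · intro h
      have := hdat.lp.nor x⁻¹ (X.inv_mem hx) _ h
      have e : x⁻¹ * (x * g * x⁻¹) * x⁻¹⁻¹ = g := by group
      rwa [e] at this
    · exact hdat.lp.nor x hx g
  have hsta : Sta π X i.range (extj i χ) := by
    intro x hx
    obtain ⟨p, hp, k, hk⟩ := hX x hx
    have hk' : ∀ g, x * i g * x⁻¹ = i ((MulAut.conj k * ρ p : MulAut G) g) := by
      intro g
      rw [hk, MulAut.mul_apply, MulAut.conj_apply]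
    rw [cj_extj hπ H hi (hnmX x hx) hk']
    have e : cmp (MulAut.conj k * ρ p) χ = cmp (ρ p) χ := by
      funext g
      show χ (k * ρ p g * k⁻¹) = χ (ρ p g)
      exact irr_class hπ H hi hBP.irr _ _
    rw [e]
    exact (hKX _ (irr_cmp _ hBP.irr)).1 (hfix p).2
  have hEq : ∀ m, Eqv (Γ := Γ) π ℓ (fun _ => True) m := by
    intro m
    have hAMa : AMa (Γ := Γ) π ℓ (fun _ => True) :=
      from_type hπ H (𝓓 := fun _ _ => True) (fun _ _ _ _ _ _ => trivial)
        (fun G _ _ D χ ψ hB _ => hAM G D χ ψ hB) Γ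
    exact H.IN F π hπ ℓ Γ (fun _ => True) hAMa m (Or.inr fun _ => trivial)
  have key := hXK F π hπ ℓ Γ Q s X i.range (D.map i) γ n hdat hEq _ h1 hdef _ h2 hcor hbl' hsta
  rw [card_fixE hπ H hi ρ P hHE X γ a ha haX hal hγ hX
    (fun p hp => by
      obtain ⟨x, hx, hx'⟩ := hX' p hp
      exact ⟨x, (Subgroup.mem_inf.1 hx).1, hx'⟩) hBP.irr D, key]
  have hfin := card_fixE hπ H hij ρ' P hHE
    (X ⊓ Subgroup.normalizer ((D.map i : Subgroup Γ) : Set Γ)) γ b hb hbX hbl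
    (fun m => by
      show γ * i (j m) * γ⁻¹ = i (j (ρ' h₀ m))
      rw [hγ, hρ]) hXN
    (fun p hp => by
      obtain ⟨x, hx, hx'⟩ := hX' p hp
      refine ⟨x, hx, fun m => ?_⟩
      show x * i (j m) * x⁻¹ = i (j (ρ' p m))
      rw [hx', hρ]) hBP.irr' E
  rw [hfin, hr, hE]

end Pool.Agent.H39.EA
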