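import Pool.Agent.H3.AM.Basic

/-!
# Module K2: the notions of the Alperin-McKay statement in the ambient group
-/

open scoped Classical

namespace Pool.Agent.H39.EA

open AMc

section

variable {N Γ : Type} [Group N] [Group Γ]

theorem extj_apply {j : N →* Γ} (hj : Function.Injective j) (ψ : N → ℂ) (n : N) :
    extj j ψ (j n) = ψ n := by
  unfold extj
  have h : ∃ m, j m = j n := ⟨n, rfl⟩
  rw [dif_pos h]
  congr 1
  exact hj h.choose_spec

theorem extj_one {j : N →* Γ} (hj : Function.Injective j) (ψ : N → ℂ) :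
    extj j ψ 1 = ψ 1 := by
  have := extj_apply hj ψ 1
  rwa [map_one] at this

theorem extj_zero {j : N →* Γ} (ψ : N → ℂ) {g : Γ} (hg : ¬ ∃ n, j n = g) :
    extj j ψ g = 0 := by
  unfold extj
  rw [dif_neg hg]

theorem extj_injective {j : N →* Γ} (hj : Function.Injective j) :
    Function.Injective (extj j) := by
  intro a b hab
  funext n
  rw [← extj_apply hj a n, ← extj_apply hj b n, hab]

theorem cen_eq_om {N' : Type} [Group N'] [Fintype N'] [Fintype Γ] {j : N →* Γ}
    (hj : Function.Injective j) {i : N' →* N} (hi : Function.Injective i) (ψ : N' → ℂ) (n : N) :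
    cen i ψ n = om (extj (j.comp i) ψ) (cls j.range (j n)) := by
  have hji : Function.Injective (j.comp i) := hj.comp hi
  unfold cen om
  rw [extj_one hji]
  congr 1
  rw [← Finset.sum_filter]
  have hmem : ∀ y : N', IsConj n (i y) ↔ (j.comp i) y ∈ cls j.range (j n) := by
    intro y
    rw [mem_cls, isConj_iff]
    constructor
    · rintro ⟨c, hc⟩
      refine ⟨j c, ⟨c, rfl⟩, ?_⟩
      rw [MonoidHom.comp_apply, ← hc, map_mul, map_mul, map_inv]
    · rintro ⟨_, ⟨c, rfl⟩, hc⟩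
      refine ⟨c, ?_⟩
      apply hj
      rw [MonoidHom.comp_apply] at hc
      rw [hc, map_mul, map_mul, map_inv]
  calc ∑ y ∈ Finset.univ.filter (fun y => IsConj n (i y)), ψ y
      = ∑ y ∈ Finset.univ.filter (fun y => IsConj n (i y)), extj (j.comp i) ψ ((j.comp i) y) :=
        Finset.sum_congr rfl fun y _ => (extj_apply hji ψ y).symm
    _ = ∑ g ∈ (Finset.univ.filter (fun y => IsConj n (i y))).map ⟨j.comp i, hji⟩,
          extj (j.comp i) ψ g := by rw [Finset.sum_map]; rfl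
    _ = ∑ g ∈ cls j.range (j n), extj (j.comp i) ψ g := by
        refine Finset.sum_subset ?_ ?_
        · intro g hg
          rw [Finset.mem_map] at hg
          obtain ⟨y, hy, rfl⟩ := hg
          exact (hmem y).1 (Finset.mem_filter.1 hy).2
        · intro g hg hg2
          apply extj_zero
          rintro ⟨y, rfl⟩
          apply hg2
          rw [Finset.mem_map]
          exact ⟨y, Finset.mem_filter.2 ⟨Finset.mem_univ _, (hmem y).2 hg⟩, rfl⟩

theorem cen_id_eq_om [Fintype N] [Fintype Γ] {j : N →* Γ}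
    (hj : Function.Injective j) (ψ : N → ℂ) (n : N) :
    cen (MonoidHom.id N) ψ n = om (extj j ψ) (cls j.range (j n)) := by
  have := cen_eq_om hj (i := MonoidHom.id N) Function.injective_id ψ n
  rwa [MonoidHom.comp_id] at this

theorem centralizer_map {j : N →* Γ} (hj : Function.Injective j) (n : N) :
    Subgroup.centralizer {j n} ⊓ j.range = (Subgroup.centralizer {n}).map j := by
  ext g
  rw [Subgroup.mem_inf, Subgroup.mem_centralizer_singleton_iff]
  constructor
  · rintro ⟨h, ⟨m, rfl⟩⟩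
    refine ⟨m, ?_, rfl⟩
    show m ∈ Subgroup.centralizer {n}
    rw [Subgroup.mem_centralizer_singleton_iff]
    apply hj
    rw [map_mul, map_mul]
    exact h
  · rintro ⟨m, hm, rfl⟩
    have hm' : m ∈ Subgroup.centralizer {n} := hm
    rw [Subgroup.mem_centralizer_singleton_iff] at hm'
    exact ⟨by rw [← map_mul, hm', map_mul], ⟨m, rfl⟩⟩

theorem mem_centralizer_map {j : N →* Γ} (hj : Function.Injective j) (n m : N) :
    j m ∈ Subgroup.centralizer {j n} ↔ m ∈ Subgroup.centralizer {n} := by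
  rw [Subgroup.mem_centralizer_singleton_iff, Subgroup.mem_centralizer_singleton_iff,
    ← map_mul, ← map_mul]
  exact hj.eq_iff

theorem isDefect_iff [Fintype N] [Fintype Γ] {j : N →* Γ} (hj : Function.Injective j)
    (𝔪 : Ideal (integralClosure ℤ ℂ)) (ℓ : ℕ) (χ : N → ℂ) (D : Subgroup N) :
    IsDefect ℓ 𝔪 χ D ↔ IsDefS ℓ 𝔪 j.range (extj j χ) (D.map j) := by
  unfold IsDefect IsDefS
  have hP : IsPGroup ℓ D ↔ IsPGroup ℓ (D.map j) := by
    constructor
    · intro h
      exact h.map j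
    · intro h
      exact h.of_equiv (D.equivMapOfInjective j hj).symm
  have hle : D.map j ≤ j.range := by
    rintro _ ⟨m, _, rfl⟩
    exact ⟨m, rfl⟩
  have hD : ∀ n : N, D.map j ≤ Subgroup.centralizer {j n} ↔ D ≤ Subgroup.centralizer {n} := by
    intro n
    constructor
    · intro h m hm
      exact (mem_centralizer_map hj n m).1 (h ⟨m, hm, rfl⟩)
    · rintro h _ ⟨m, hm, rfl⟩
      exact (mem_centralizer_map hj n m).2 (h hm)
  have hidx : ∀ n : N, (D.map j).relIndex (Subgroup.centralizer {j n} ⊓ j.range) =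
      D.relIndex (Subgroup.centralizer {n}) := by
    intro n
    rw [centralizer_map hj, Subgroup.relIndex_map_map_of_injective _ _ hj]
  constructor
  · rintro ⟨h1, ⟨x, hx1, hx2, hx3⟩, h2⟩
    refine ⟨hP.1 h1, hle, ⟨j x, ⟨x, rfl⟩, ?_, (hD x).2 hx2, ?_⟩, ?_⟩
    · rw [← cen_id_eq_om hj]; exact hx1
    · rw [hidx]; exact hx3
    · rintro _ ⟨y, rfl⟩ hy
      rw [← cen_id_eq_om hj] at hy
      obtain ⟨g, hg⟩ := h2 y hy
      refine ⟨j g, ⟨g, rfl⟩, ?_⟩
      rintro _ ⟨d, hd, rfl⟩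
      rw [← map_inv, ← map_mul, ← map_mul, mem_centralizer_map hj]
      exact hg d hd
  · rintro ⟨h1, -, ⟨_, ⟨x, rfl⟩, hx1, hx2, hx3⟩, h2⟩
    refine ⟨hP.2 h1, ⟨x, ?_, (hD x).1 hx2, ?_⟩, ?_⟩
    · rw [← cen_id_eq_om hj] at hx1; exact hx1
    · rw [hidx] at hx3; exact hx3
    · intro y hy
      rw [cen_id_eq_om hj] at hy
      obtain ⟨_, ⟨g, rfl⟩, hg⟩ := h2 (j y) ⟨y, rfl⟩ hy
      refine ⟨g, fun d hd => ?_⟩
      rw [← mem_centralizer_map hj, map_mul, map_mul, map_inv]
      exact hg (j d) ⟨d, hd, rfl⟩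

theorem normalizer_map {j : N →* Γ} (hj : Function.Injective j) (D : Subgroup N) :
    (Subgroup.normalizer (D : Set N)).map j =
      j.range ⊓ Subgroup.normalizer ((D.map j : Subgroup Γ) : Set Γ) := by
  have hmem : ∀ m : N, j m ∈ D.map j ↔ m ∈ D := fun m => Subgroup.mem_map_iff_mem hj
  ext g
  constructor
  · rintro ⟨m, hm, rfl⟩
    refine Subgroup.mem_inf.2 ⟨⟨m, rfl⟩, ?_⟩
    have hm' : m ∈ Subgroup.normalizer (D : Set N) := hm
    rw [Subgroup.mem_normalizer_iff] at hm' ⊢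
    intro x
    constructor
    · rintro ⟨d, hd, rfl⟩
      rw [← map_inv, ← map_mul, ← map_mul]
      exact ⟨_, (hm' d).1 hd, rfl⟩
    · rintro ⟨d, hd, hdx⟩
      have hx : x = j (m⁻¹ * d * m) := by
        rw [map_mul, map_mul, map_inv, hdx]
        group
      rw [hx]
      refine ⟨_, ?_, rfl⟩
      show m⁻¹ * d * m ∈ D
      rw [hm']
      have : m * (m⁻¹ * d * m) * m⁻¹ = d := by group
      rw [this]
      exact hd
  · intro hg
    obtain ⟨⟨m, rfl⟩, hm⟩ := Subgroup.mem_inf.1 hg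
    refine ⟨m, ?_, rfl⟩
    show m ∈ Subgroup.normalizer (D : Set N)
    rw [Subgroup.mem_normalizer_iff] at hm ⊢
    intro x
    have h1 := hm (j x)
    rw [← map_inv, ← map_mul, ← map_mul] at h1
    exact ((hmem x).symm.trans h1).trans (hmem _)

end

theorem k2 (h : T_K1) : T_K2 := by
  intro N Γ _ _ _ _ j hj 𝔪 ℓ χ D
  obtain ⟨-, hIrr, hsurj, -⟩ := h N Γ j hj
  refine ⟨isDefect_iff hj 𝔪 ℓ χ D, ?_, ?_, normalizer_map hj D⟩
  · have hidx : (D.map j).relIndex j.range = D.index := by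
      rw [MonoidHom.range_eq_map, Subgroup.relIndex_map_map_of_injective _ _ hj,
        Subgroup.relIndex_top_right]
    have hset : K0S ℓ 𝔪 j.range (extj j χ) (D.map j) =
        extj j '' {χ' : N → ℂ | χ' ∈ Irr N ∧ SameBlock 𝔪 χ χ' ∧
          ∃ d : ℕ, χ' 1 = d ∧ padicValNat ℓ d = padicValNat ℓ D.index} := by
      ext θ
      constructor
      · rintro ⟨h1, h2, d, h3, h4⟩
        obtain ⟨ψ, hψ, rfl⟩ := hsurj θ h1
        refine ⟨ψ, ⟨hψ, ?_, d, ?_, ?_⟩, rfl⟩
        · intro x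
          rw [cen_id_eq_om hj, cen_id_eq_om hj]
          exact h2 (j x) ⟨x, rfl⟩
        · rw [← h3, extj_one hj]
        · rw [h4, hidx]
      · rintro ⟨ψ, ⟨h1, h2, d, h3, h4⟩, rfl⟩
        refine ⟨(hIrr ψ).1 h1, ?_, d, ?_, ?_⟩
        · rintro _ ⟨x, rfl⟩
          rw [← cen_id_eq_om hj, ← cen_id_eq_om hj]
          exact h2 x
        · rw [← h3, extj_one hj]
        · rw [h4, hidx]
    unfold k0
    rw [hset, Set.ncard_image_of_injective _ (extj_injective hj)]
  · intro N' _ _ i hi ψ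
    constructor
    · rintro h1 _ ⟨x, rfl⟩
      rw [← cen_id_eq_om hj, ← cen_eq_om hj hi]
      exact h1 x
    · intro h1 x
      rw [cen_id_eq_om hj, cen_eq_om hj hi]
      exact h1 (j x) ⟨x, rfl⟩

end Pool.Agent.H39.EA
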